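import Pool.Agent.H491R4.AF3
import Pool.Agent.W263.BSD.Defs

/-!
# Lang-Trotter counts in polynomial families of elliptic curves with parameters in automatic sets

Let `E_{s,t} : y² = x³ + f(s, t) x + g(s, t)` be an arbitrary polynomial family (`f, g` polynomials in two variables with
integer coefficients, for example `f = s`, `g = t`: all curves; `f = A t²`, `g = B t³`: the quadratic twists of one curve;
`f = f(t)`, `g = g(t)`: an elliptic surface). The parameters run through an arbitrary automatic set `S` (the set of the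
integers whose digits in a base `b` are accepted by a finite automaton) of more than polylogarithmic size; such sets may
have as few as `N ^ c` elements below `N`, with arbitrarily small `c > 0`.

For almost all `t` in `S` the number of the primes `p ≤ x`, `p ≡ c` modulo `q`, of good reduction with trace of Frobenius
`a_p = r` is equal to the sum over these `p` of the exact proportion of the parameters modulo `p` with this property, with
an error of at most the SQUARE ROOT of this sum times `x ^ δ`, for all small traces `r` and all `x` up to a power of `N` at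
once; and for almost all `s` this sum is equal, with the same precision, to the sum of the proportions of the pairs of
parameters modulo `p`. (For the family of all curves the last sum is asymptotic to `C_r √x / log x` by the theorems of
Deuring and of Fouvry and Murty, so that the error is `x ^ (1 / 4 + δ)`.)

Definitions used: in `Pool.Agent.H491R4.AF` (file `Pool/Agent/H491R4/AF2.lean`): `acc b M N E`: the number of the
integers `v < N` accepted by the automaton `M` (reading the digits of `v` in base `b`, the least significant digit first)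
with the property `E`; `AlmostS b M N κ c τ P`: the proportion of the `v < N` accepted by `M` for which `c + κ v` does not
have the property `P` is at most `τ`; in `Pool.Agent.W263.BSD` (file `Pool/Agent/W263/BSD/Defs.lean`):
`pointCount a n p` is the number of the solutions of `y² = x³ + a x + n` modulo `p`, `GoodPrime a n p`: `p` is a prime which
does not divide `2 (-4 a³ - 27 n²)`.
-/

set_option autoImplicit false

namespace Pool.Agent.Results.MP_631487_nt.AutomaticCurves

open Finset Filter Pool.Agent.R459.Eq Pool.Agent.H491R4.AF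
open Pool.Agent.W263.BSD (GoodPrime pointCount)

/-- the value of the polynomial `f` at `(s, t)` -/
noncomputable def val (f : MvPolynomial (Fin 2) ℤ) (s t : ℤ) : ℤ := MvPolynomial.eval ![s, t] f

/-- `p` is `c` modulo `q` and is a prime of good reduction of `E : y² = x³ + f(s, t) x + g(s, t)`, not `2`, and the trace of
Frobenius `a_p = p + 1 - #E(F_p)` is `r` (`#E(F_p)` is `pointCount` plus one for the point at infinity). -/
def HasTrace (f g : MvPolynomial (Fin 2) ℤ) (q c : ℕ) (r : ℤ) (p : ℕ) (s t : ℤ) : Prop :=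
  p % q = c ∧ GoodPrime (val f s t) (val g s t) p ∧ (p : ℤ) - pointCount (val f s t) (val g s t) p = r

open Classical in
/-- The number of the primes `p ≤ x`, `p ≡ c` modulo `q`, of good reduction of `y² = x³ + f(s, t) x + g(s, t)` with
`a_p = r`. -/
noncomputable def count (f g : MvPolynomial (Fin 2) ℤ) (q c : ℕ) (r s t : ℤ) (x : ℕ) : ℕ :=
  ((range (x + 1)).filter (fun p => HasTrace f g q c r p s t)).card

open Classical in
/-- The sum over the primes `p ≤ x` of the proportion of the residues `τ` modulo `p` for which `p ≡ c` modulo `q` is a prime of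
good reduction of `y² = x³ + f(s, τ) x + g(s, τ)` with `a_p = r`. -/
noncomputable def model (f g : MvPolynomial (Fin 2) ℤ) (q c : ℕ) (r s : ℤ) (x : ℕ) : ℝ :=
  ∑ p ∈ (range (x + 1)).filter Nat.Prime, (((range p).filter (fun τ : ℕ => HasTrace f g q c r p s τ)).card : ℝ) / p

open Classical in
/-- The sum over the primes `p ≤ x` of the proportion of the pairs `(σ, τ)` of residues modulo `p` for which `p ≡ c` modulo `q`
is a prime of good reduction of `y² = x³ + f(σ, τ) x + g(σ, τ)` with `a_p = r`. -/
noncomputable def modelPairs (f g : MvPolynomial (Fin 2) ℤ) (q c : ℕ) (r : ℤ) (x : ℕ) : ℝ :=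
  ∑ p ∈ (range (x + 1)).filter Nat.Prime,
    (((range p ×ˢ range p).filter (fun z : ℕ × ℕ => HasTrace f g q c r p z.1 z.2)).card : ℝ) / (p : ℝ) ^ 2

/-- a numbering of the integers -/
def dec (j : ℕ) : ℤ := if j % 2 = 0 then ((j / 2 : ℕ) : ℤ) else -((j / 2 + 1 : ℕ) : ℤ)

/-- its inverse -/
def enc (r : ℤ) : ℕ := if 0 ≤ r then 2 * r.natAbs else 2 * r.natAbs - 1

lemma dec_enc (r : ℤ) : dec (enc r) = r := by
  unfold dec enc
  split_ifs <;> omega

lemma dec_inj {i j : ℕ} (h : dec i = dec j) : i = j := by
  unfold dec at h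
  split_ifs at h <;> omega

lemma enc_le (r : ℤ) : (enc r : ℝ) ≤ 2 * |(r : ℝ)| := by
  have h : (enc r : ℤ) ≤ 2 * |r| := by
    unfold enc
    rcases abs_cases r with ⟨h1, h2⟩ | ⟨h1, h2⟩ <;> rw [h1] <;> split_ifs <;> omega
  have h2 : ((enc r : ℤ) : ℝ) ≤ ((2 * |r| : ℤ) : ℝ) := by exact_mod_cast h
  push_cast at h2
  exact h2

lemma pri_eq (x : ℕ) [DecidablePred Nat.Prime] : (range (x + 1)).filter Nat.Prime = pri x := by
  unfold pri
  congr!

lemma count_eq (f g : MvPolynomial (Fin 2) ℤ) (q c : ℕ) (r s t : ℤ) (x : ℕ) :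
    count f g q c r s t x = cntR (HasTrace f g q c r) s t x := by
  classical
  unfold count cntR
  congr 1
  ext p
  simp only [mem_filter, mem_range, mem_pri]
  constructor
  · rintro ⟨h1, h2⟩
    exact ⟨⟨by omega, h2.2.1.1⟩, h2⟩
  · rintro ⟨h1, h2⟩
    exact ⟨by omega, h2⟩

lemma model_eq (f g : MvPolynomial (Fin 2) ℤ) (q c : ℕ) (r s : ℤ) (x : ℕ) :
    model f g q c r s x = ∑ p ∈ pri x, Pool.Agent.R459.Eq.dens (HasTrace f g q c r) s p := by
  classical
  unfold model Pool.Agent.R459.Eq.dens
  rw [pri_eq]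

lemma modelPairs_eq (f g : MvPolynomial (Fin 2) ℤ) (q c : ℕ) (r : ℤ) (x : ℕ) :
    modelPairs f g q c r x = ∑ p ∈ pri x, dens2 (HasTrace f g q c r) p := by
  classical
  unfold modelPairs dens2
  rw [pri_eq]

lemma val_cast (f : MvPolynomial (Fin 2) ℤ) (p : ℕ) (s s' t t' : ℤ) (h : (p : ℤ) ∣ s - s') (h' : (p : ℤ) ∣ t - t') :
    ((val f s t : ℤ) : ZMod p) = ((val f s' t' : ℤ) : ZMod p) := by
  have e1 : ((s : ℤ) : ZMod p) = ((s' : ℤ) : ZMod p) := by
    rw [← sub_eq_zero, ← Int.cast_sub, ZMod.intCast_zmod_eq_zero_iff_dvd]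
    exact h
  have e2 : ((t : ℤ) : ZMod p) = ((t' : ℤ) : ZMod p) := by
    rw [← sub_eq_zero, ← Int.cast_sub, ZMod.intCast_zmod_eq_zero_iff_dvd]
    exact h'
  unfold val
  induction f using MvPolynomial.induction_on with
  | C a => simp
  | add p q hp hq => rw [map_add, map_add, Int.cast_add, Int.cast_add, hp, hq]
  | mul_X p i hp =>
    rw [map_mul, map_mul, Int.cast_mul, Int.cast_mul, hp, MvPolynomial.eval_X, MvPolynomial.eval_X]
    congr 1
    fin_cases i
    · simpa using e1
    · simpa using e2

lemma trace_per (f g : MvPolynomial (Fin 2) ℤ) (q c : ℕ) (r : ℤ) (p : ℕ) (_hp : p.Prime) (s s' t t' : ℤ)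
    (h : (p : ℤ) ∣ s - s') (h' : (p : ℤ) ∣ t - t') : HasTrace f g q c r p s t ↔ HasTrace f g q c r p s' t' := by
  have e1 := val_cast f p s s' t t' h h'
  have e2 := val_cast g p s s' t t' h h'
  have h1 : GoodPrime (val f s t) (val g s t) p ↔ GoodPrime (val f s' t') (val g s' t') p := by
    unfold GoodPrime
    rw [← ZMod.intCast_zmod_eq_zero_iff_dvd, ← ZMod.intCast_zmod_eq_zero_iff_dvd]
    push_cast
    rw [e1, e2]
  have h2 : pointCount (val f s t) (val g s t) p = pointCount (val f s' t') (val g s' t') p := by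
    unfold pointCount
    rw [e1, e2]
  unfold HasTrace
  rw [h1, h2]

/-- **Lang-Trotter counts in polynomial families with parameters in automatic sets.** Let `S` be the set of the integers
`v ≥ 0` whose digits in base `b ≥ 2` are accepted by a finite automaton `M`, and suppose that `S` has more than
polylogarithmic size: for every `k` there are infinitely many `N` such that more than `(log N) ^ k` elements of `S` are
smaller than `N`. Let `0 < δ ≤ 1 / 2`. There are `W` and `e` such that for `κ ≠ 0` and all sufficiently large `X` the following holds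
for all `N` and `c₀`, all `f, g` in `ℤ[s, t]` and all `q, c`.

(1) For EVERY integer `s`, almost all the `t = c₀ + κ v` with `v ∈ S`, `v < N`, up to a proportion of at most
`2 (log N) ^ e X ^ (- δ / 2)`, have for ALL `x ≥ X` with `x ^ W ≤ N` and ALL `r`: the number of the primes `p ≤ x`, `p ≡ c` modulo
`q`, of good reduction of `E : y² = x³ + f(s, t) x + g(s, t)` with `a_p(E) = r` differs from the sum over `p ≤ x` of the
proportion of the residues `τ` modulo `p` such that `y² = x³ + f(s, τ) x + g(s, τ)` has this property, by at most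
`x ^ (1 / 2 + δ)` if `2 |r| ≤ x`, and by at most `√(max 1 D) x ^ δ`, `D` the same sum over `p ≤ 2 x`, if `2 |r| ≤ x ^ (δ / 2)`.

(2) Almost all the `s = c₀ + κ v` with `v ∈ S`, `v < N`, up to a proportion of at most `2 (log N) ^ e X ^ (- δ / 2)`, have for ALL
`x ≥ X` with `x ^ W ≤ N` and ALL `r`: the sum of these proportions differs from the sum over `p ≤ x` of the proportion of
the PAIRS of residues modulo `p` which have this property by at most `x ^ (1 / 2 + δ)` if `2 |r| ≤ x`, and by at most
`√(max 1 D') x ^ δ`, `D'` the sum of the proportions of the pairs over `p ≤ 2 x`, if `2 |r| ≤ x ^ (δ / 2)`. -/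
theorem result {σ : Type} [Fintype σ] (b : ℕ) (hb : 2 ≤ b) (M : DFA ℕ σ)
    (hS : ∀ k : ℕ, ∃ᶠ N : ℕ in atTop, Real.log N ^ k < (acc b M N (fun _ => True) : ℝ))
    (δ : ℝ) (hδ : 0 < δ) (hδ1 : δ ≤ 1 / 2) : ∃ W e : ℕ, 1 ≤ W ∧
    ∀ κ : ℤ, κ ≠ 0 → ∃ X₀ : ℕ, ∀ X : ℕ, X₀ ≤ X → ∀ N : ℕ, ∀ c₀ : ℤ, ∀ (f g : MvPolynomial (Fin 2) ℤ) (q c : ℕ),
    (∀ s : ℤ, AlmostS b M N κ c₀ (2 * Real.log N ^ e * (X : ℝ) ^ (-(δ / 2))) (fun t => ∀ x : ℕ, X ≤ x → x ^ W ≤ N →
      ∀ r : ℤ,
        (2 * |(r : ℝ)| ≤ x → |(count f g q c r s t x : ℝ) - model f g q c r s x| ≤ (x : ℝ) ^ (1 / 2 + δ)) ∧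
        (2 * |(r : ℝ)| ≤ (x : ℝ) ^ (δ / 2) → |(count f g q c r s t x : ℝ) - model f g q c r s x| ≤
          √(max 1 (model f g q c r s (2 * x))) * (x : ℝ) ^ δ))) ∧
    AlmostS b M N κ c₀ (2 * Real.log N ^ e * (X : ℝ) ^ (-(δ / 2))) (fun s => ∀ x : ℕ, X ≤ x → x ^ W ≤ N →
      ∀ r : ℤ,
        (2 * |(r : ℝ)| ≤ x → |model f g q c r s x - modelPairs f g q c r x| ≤ (x : ℝ) ^ (1 / 2 + δ)) ∧
        (2 * |(r : ℝ)| ≤ (x : ℝ) ^ (δ / 2) → |model f g q c r s x - modelPairs f g q c r x| ≤
          √(max 1 (modelPairs f g q c r (2 * x))) * (x : ℝ) ^ δ)) := by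
  obtain ⟨W, e, hW, H⟩ := two_count_aut b hb M hS δ hδ hδ1
  refine ⟨W, e, hW, fun κ hκ => ?_⟩
  obtain ⟨X₀, J⟩ := H κ hκ
  refine ⟨X₀, fun X hX N c₀ f g q c => ?_⟩
  obtain ⟨h1, h2⟩ := J X hX N c₀ (fun j => HasTrace f g q c (dec j)) (fun j p hp => by
      intro a a' n n' h h'
      exact trace_per f g q c (dec j) p hp a a' n n' h h') (by
    intro p _ a n Q hQ
    have h3 : Q.card ≤ 1 := by
      rw [card_le_one]
      intro i hi j hj
      apply dec_inj
      rw [← (hQ i hi).2.2, ← (hQ j hj).2.2]
    omega)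
  have h8 : 2 * Real.log N ^ e * (X : ℝ) ^ (-(δ / 2)) = Real.log N ^ e * (2 * (X : ℝ) ^ (-(δ / 2))) := by ring
  rw [h8]
  constructor
  · intro s
    refine AlmostS.mono (h1 s) ?_
    intro t ht x hXx hxW r
    obtain ⟨h3, h4⟩ := ht x hXx hxW
    have h5 := enc_le r
    constructor
    · intro hr
      have h6 := h3 (enc r) (by exact_mod_cast h5.trans hr)
      simp only [dec_enc] at h6
      rw [count_eq, model_eq]
      exact h6
    · intro hr
      have h6 := h4 (enc r) (h5.trans hr)
      simp only [dec_enc] at h6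
      rw [count_eq, model_eq, model_eq]
      exact h6
  · refine AlmostS.mono h2 ?_
    intro s hs x hXx hxW r
    obtain ⟨h3, h4⟩ := hs x hXx hxW
    have h5 := enc_le r
    constructor
    · intro hr
      have h6 := h3 (enc r) (by exact_mod_cast h5.trans hr)
      simp only [dec_enc] at h6
      rw [modelPairs_eq, model_eq]
      exact h6
    · intro hr
      have h6 := h4 (enc r) (h5.trans hr)
      simp only [dec_enc] at h6
      rw [modelPairs_eq, modelPairs_eq, model_eq]
      exact h6

end Pool.Agent.Results.MP_631487_nt.AutomaticCurves
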