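import Pool.Agent.T2H53.FL.Engine
import Pool.Agent.T2H58.DQ.Eq

set_option autoImplicit false

/-!
# Lang-Trotter counts of the fibres of elliptic surfaces at sequences with a level of distribution

Let `E_i : y² = x³ + f_i(T) x + g_i(T)`, `i < m`, be arbitrary elliptic surfaces, `f_i, g_i` in `ℤ[T]`, and let `D_1, …, D_N` be
integers which are equidistributed modulo all `q ≤ N^θ` with an error of at most `C₁ N^(1 - θ)`, for example `D_j = ⌊f(j)⌋` for a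
smooth real function `f` which is not too close to a polynomial, as `α j^c + P(j)` (`c > 0` not an integer) or `α j log j`, or
`D_j = j`. For all `j` up to a proportion of at most `X ^ (-κ)` (any `κ`) the following holds for ALL `x ≥ X` up to a fixed power
of `N`, ALL integers `r_1, …, r_m` and ALL residue classes `c` modulo `q ≤ x`:

(1) the number of the primes `p ≤ x`, `p ≡ c` modulo `q`, at which all the fibres `E_i(D_j)` have good reduction and the traces of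
Frobenius `a_p(E_i(D_j)) = r_i`, differs by at most `√(max 1 V) x ^ δ` from the expected number `V`, the sum over the primes
`p ≤ x`, `p ≡ c` modulo `q`, of the proportion of the `t` modulo `p` with this property;

(2) (zero-one law for one-sided bounds) if `V ≤ Y` for a `Y ≥ x ^ (1/4)` then this number is at most `(1 + ε) Y`, and if `V > Y`
then it is more than `(1 - ε) Y`. With `Y = C √x / log x` this is the bound of Lang and Trotter: for every `x` and `r`, it is true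
(up to `ε`) for almost all fibres if it is true for `V`, and it is false (up to `ε`) for almost all fibres if it is false for `V`.

The constants do not depend on the surfaces, not even on the degrees of the polynomials.
-/

namespace Pool.Agent.Results.MP_631487_nt.FibresOverSequences

open Finset Polynomial

/-- `f` is `k` times differentiable at all `x ≥ x₀` (with derivatives `F 0 = f`, `F 1`, ..., `F k`), and `f^(k)` or
`-f^(k)` is nonincreasing on `[x₀, ∞)`, between `x ^ (-2 + η)` and `x ^ (-η)`, and at most `A` times its value at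
`2 x`. -/
def Regular (k : ℕ) (x₀ η A : ℝ) (f : ℝ → ℝ) : Prop :=
  ∃ F : ℕ → ℝ → ℝ, F 0 = f ∧ (∀ j < k, ∀ x, x₀ ≤ x → HasDerivAt (F j) (F (j + 1) x) x) ∧
    ∃ s : ℝ, (s = 1 ∨ s = -1) ∧ (∀ x, x₀ ≤ x → x ^ (-2 + η) ≤ s * F k x ∧ s * F k x ≤ x ^ (-η) ∧
      s * F k x ≤ A * (s * F k (2 * x))) ∧ ∀ x y, x₀ ≤ x → x ≤ y → s * F k y ≤ s * F k x

/-- For all `1 ≤ q ≤ N ^ θ` and all residues `v` modulo `q` the number of the `1 ≤ n ≤ N` with `D_n ≡ v` modulo `q` is `N / q` up to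
an error of at most `C N ^ (1 - θ)`. -/
def Level (θ C : ℝ) (D : ℕ → ℤ) (N : ℕ) : Prop :=
  ∀ q : ℕ, 1 ≤ q → (q : ℝ) ≤ (N : ℝ) ^ θ → ∀ v : ℤ, 0 ≤ v → v < q →
    |(((Ioc 0 N).filter (fun n => D n % (q : ℤ) = v)).card : ℝ) - (N : ℝ) / q| ≤ C * (N : ℝ) ^ (1 - θ)

/-- The number of the solutions of `y² = x³ + A x + B` modulo `p`. -/
def solutions (A B : ℤ) (p : ℕ) : ℕ :=
  ((range p ×ˢ range p).filter (fun xy => (p : ℤ) ∣ (xy.2 : ℤ) ^ 2 - ((xy.1 : ℤ) ^ 3 + A * xy.1 + B))).card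

/-- For all `i` the curve `y² = x³ + A_i x + B_i` is smooth modulo `p ≠ 2`, and its trace of Frobenius, `p` minus the number of the
solutions modulo `p`, is `r_i`. -/
def Traces {m : ℕ} (A B r : Fin m → ℤ) (p : ℕ) : Prop :=
  ∀ i, ¬ (p : ℤ) ∣ 2 * (4 * A i ^ 3 + 27 * B i ^ 2) ∧ (p : ℤ) - solutions (A i) (B i) p = r i

open Classical in
/-- The number of the primes `p ≤ x` with `p % q = c` of good reduction of all the `y² = x³ + A_i x + B_i` and with the traces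
`r_i`. -/
noncomputable def count {m : ℕ} (A B r : Fin m → ℤ) (q c x : ℕ) : ℕ :=
  ((range (x + 1)).filter (fun p => p.Prime ∧ p % q = c ∧ Traces A B r p)).card

open Classical in
/-- The sum over the primes `p ≤ x` with `p % q = c` of the proportion of the residues `t` modulo `p` for which all the
`y² = x³ + f_i(t) x + g_i(t)` have good reduction at `p` and the traces `r_i`. -/
noncomputable def expected {m : ℕ} (f g : Fin m → ℤ[X]) (r : Fin m → ℤ) (q c x : ℕ) : ℝ :=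
  ∑ p ∈ (range (x + 1)).filter (fun p => p.Prime ∧ p % q = c),
    (((range p).filter (fun t : ℕ => Traces (fun i => (f i).eval (t : ℤ)) (fun i => (g i).eval (t : ℤ)) r p)).card : ℝ) / p

/-- For some `x ≥ X` with `x ^ W ≤ N`, some integers `r_1, …, r_m`, some `q ≤ x` and some `c < q` the number `count` for the fibres
at `n` differs from the expected number `V` by more than `(max 1 V) ^ (1 / 2) x ^ δ`. -/
def Bad {m : ℕ} (f g : Fin m → ℤ[X]) (δ : ℝ) (W X N : ℕ) (n : ℤ) : Prop :=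
  ∃ x : ℕ, X ≤ x ∧ x ^ W ≤ N ∧ ∃ (r : Fin m → ℤ) (q c : ℕ), 1 ≤ q ∧ q ≤ x ∧ c < q ∧
    √(max 1 (expected f g r q c x)) * (x : ℝ) ^ δ <
      |(count (fun i => (f i).eval n) (fun i => (g i).eval n) r q c x : ℝ) - expected f g r q c x|

/-- For some `x ≥ X` with `x ^ W ≤ N`, some integers `r_1, …, r_m`, some `q ≤ x`, `c < q` and some real `Y ≥ x ^ (1/4)` either the
expected number is at most `Y` but the number `count` for the fibres at `n` is more than `(1 + ε) Y`, or the expected number is more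
than `Y` but the number `count` is at most `(1 - ε) Y`. -/
def Unlike {m : ℕ} (f g : Fin m → ℤ[X]) (ε : ℝ) (W X N : ℕ) (n : ℤ) : Prop :=
  ∃ x : ℕ, X ≤ x ∧ x ^ W ≤ N ∧ ∃ (r : Fin m → ℤ) (q c : ℕ), 1 ≤ q ∧ q ≤ x ∧ c < q ∧ ∃ Y : ℝ, (x : ℝ) ^ (1 / 4 : ℝ) ≤ Y ∧
    ((expected f g r q c x ≤ Y ∧ (1 + ε) * Y < count (fun i => (f i).eval n) (fun i => (g i).eval n) r q c x) ∨
     (Y < expected f g r q c x ∧ (count (fun i => (f i).eval n) (fun i => (g i).eval n) r q c x : ℝ) ≤ (1 - ε) * Y))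

theorem dvd_congr {p : ℤ} {A A' B B' : ℤ} (hA : p ∣ A - A') (hB : p ∣ B - B') (x y : ℤ) :
    p ∣ y ^ 2 - (x ^ 3 + A * x + B) ↔ p ∣ y ^ 2 - (x ^ 3 + A' * x + B') := by
  have h : p ∣ (y ^ 2 - (x ^ 3 + A * x + B)) - (y ^ 2 - (x ^ 3 + A' * x + B')) := by
    have e : (y ^ 2 - (x ^ 3 + A * x + B)) - (y ^ 2 - (x ^ 3 + A' * x + B')) = -((A - A') * x + (B - B')) := by ring
    rw [e]
    exact (dvd_neg.2 (dvd_add (hA.mul_right x) hB))
  exact ⟨fun h1 => by simpa using dvd_sub h1 h, fun h1 => by simpa using dvd_add h h1⟩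

theorem solutions_congr {p : ℕ} {A A' B B' : ℤ} (hA : (p : ℤ) ∣ A - A') (hB : (p : ℤ) ∣ B - B') :
    solutions A B p = solutions A' B' p := by
  unfold solutions
  congr 1
  exact filter_congr fun xy _ => dvd_congr hA hB _ _

theorem disc_congr {p : ℤ} {A A' B B' : ℤ} (hA : p ∣ A - A') (hB : p ∣ B - B') :
    p ∣ 2 * (4 * A ^ 3 + 27 * B ^ 2) ↔ p ∣ 2 * (4 * A' ^ 3 + 27 * B' ^ 2) := by
  have h : p ∣ 2 * (4 * A ^ 3 + 27 * B ^ 2) - 2 * (4 * A' ^ 3 + 27 * B' ^ 2) := by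
    have e : 2 * (4 * A ^ 3 + 27 * B ^ 2) - 2 * (4 * A' ^ 3 + 27 * B' ^ 2) =
        (A - A') * (8 * (A ^ 2 + A * A' + A' ^ 2)) + (B - B') * (54 * (B + B')) := by ring
    rw [e]
    exact dvd_add (hA.mul_right _) (hB.mul_right _)
  exact ⟨fun h1 => by simpa using dvd_sub h1 h, fun h1 => by simpa using dvd_add h h1⟩

theorem solutions_le (A B : ℤ) (p : ℕ) : solutions A B p ≤ p ^ 2 := by
  unfold solutions
  refine (card_filter_le _ _).trans ?_
  rw [card_product, card_range]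
  nlinarith

/-- the local conditions -/
def T {m : ℕ} (f g : Fin m → ℤ[X]) (s : (Fin m → ℤ) × ℕ × ℕ) (p : ℕ) (n : ℤ) : Prop :=
  p % s.2.1 = s.2.2 ∧ Traces (fun i => (f i).eval n) (fun i => (g i).eval n) s.1 p

theorem T_loc {m : ℕ} (f g : Fin m → ℤ[X]) (s : (Fin m → ℤ) × ℕ × ℕ) : Pool.Agent.T2H53.FL.Loc (T f g s) := by
  intro p _ a b hab
  refine and_congr_right fun _ => forall_congr' fun i => ?_
  have h1 : (p : ℤ) ∣ (f i).eval a - (f i).eval b := hab.trans (Polynomial.sub_dvd_eval_sub a b (f i))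
  have h2 : (p : ℤ) ∣ (g i).eval a - (g i).eval b := hab.trans (Polynomial.sub_dvd_eval_sub a b (g i))
  show ¬ (p : ℤ) ∣ 2 * (4 * (f i).eval a ^ 3 + 27 * (g i).eval a ^ 2) ∧ (p : ℤ) - solutions ((f i).eval a) ((g i).eval a) p = s.1 i ↔
    ¬ (p : ℤ) ∣ 2 * (4 * (f i).eval b ^ 3 + 27 * (g i).eval b ^ 2) ∧ (p : ℤ) - solutions ((f i).eval b) ((g i).eval b) p = s.1 i
  rw [disc_congr h1 h2, solutions_congr h1 h2]

theorem count_eq {m : ℕ} (f g : Fin m → ℤ[X]) (r : Fin m → ℤ) (q c x : ℕ) (n : ℤ) :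
    count (fun i => (f i).eval n) (fun i => (g i).eval n) r q c x = Pool.Agent.T2H53.FL.cn (T f g (r, q, c)) x n := by
  classical
  unfold count Pool.Agent.T2H53.FL.cn
  congr 1
  ext p
  rw [mem_filter, mem_filter]
  exact Iff.rfl

theorem expected_eq {m : ℕ} (f g : Fin m → ℤ[X]) (r : Fin m → ℤ) (q c x : ℕ) :
    expected f g r q c x = Pool.Agent.T2H53.FL.vv (T f g (r, q, c)) x := by
  classical
  unfold expected Pool.Agent.T2H53.FL.vv
  have h1 : (range (x + 1)).filter (fun p => p.Prime ∧ p % q = c) =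
      ((range (x + 1)).filter Nat.Prime).filter (fun p => p % q = c) := by
    rw [filter_filter]
  rw [h1, sum_filter]
  refine sum_congr rfl fun p _ => ?_
  split_ifs with hp
  · congr 2
    refine congrArg card (filter_congr fun t _ => ?_)
    exact ⟨fun h => ⟨hp, h⟩, fun h => h.2⟩
  · symm
    have h2 : ((range p).filter (fun t : ℕ => T f g (r, q, c) p (t : ℤ))) = ∅ := by
      rw [filter_eq_empty_iff]
      intro t _ ht
      exact hp ht.1
    rw [h2]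
    simp

theorem expected_nonneg {m : ℕ} (f g : Fin m → ℤ[X]) (r : Fin m → ℤ) (q c x : ℕ) : 0 ≤ expected f g r q c x := by
  unfold expected
  exact sum_nonneg fun p _ => by positivity

/-- the law -/
theorem law (m κ : ℕ) (δ θ C₁ : ℝ) (hδ : 0 < δ) (hθ : 0 < θ) (hC₁ : 1 ≤ C₁) : ∃ W X₀ : ℕ, 1 ≤ W ∧
    ∀ (f g : Fin m → ℤ[X]) (X N : ℕ) (D : ℕ → ℤ), X₀ ≤ X → Level θ C₁ D N →
      (({j : ℕ | 1 ≤ j ∧ j ≤ N ∧ Bad f g δ W X N (D j)}).ncard : ℝ) * (X : ℝ) ^ κ ≤ N := by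
  classical
  obtain ⟨W, X₀, hW, hlaw⟩ := Pool.Agent.T2H53.FL.law δ κ (4 * m + 2) hδ θ C₁ hθ hC₁
  refine ⟨W, max X₀ 2, hW, ?_⟩
  intro f g X N D hX hD
  have hXa : X₀ ≤ X := (le_max_left _ _).trans hX
  have hXb : 2 ≤ X := (le_max_right _ _).trans hX
  obtain ⟨R, hR⟩ : ∃ R : ℕ → Finset ((Fin m → ℤ) × ℕ × ℕ), R = fun x : ℕ => if x < 2 then ∅ else
    (Fintype.piFinset fun _ : Fin m => Icc (-((x : ℤ) ^ 2)) ((x : ℤ) ^ 2)) ×ˢ (Icc 1 x ×ˢ range x) := ⟨_, rfl⟩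
  have hRc : ∀ x, (R x).card ≤ x ^ (4 * m + 2) := by
    intro x
    rw [hR]
    simp only
    split_ifs with h
    · simp
    · push Not at h
      rw [card_product, card_product, Fintype.card_piFinset_const, card_range, Nat.card_Icc, Int.card_Icc]
      have e1 : ((x : ℤ) ^ 2 + 1 - -((x : ℤ) ^ 2)).toNat = 2 * x ^ 2 + 1 := by
        have : (x : ℤ) ^ 2 + 1 - -((x : ℤ) ^ 2) = ((2 * x ^ 2 + 1 : ℕ) : ℤ) := by push_cast; ring
        rw [this, Int.toNat_natCast]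
      rw [e1]
      have h2 : 2 * x ^ 2 + 1 ≤ x ^ 4 := by
        have h3 : 4 ≤ x ^ 2 := by nlinarith
        nlinarith
      calc (2 * x ^ 2 + 1) ^ m * ((x + 1 - 1) * x) ≤ (x ^ 4) ^ m * (x * x) := by
            apply Nat.mul_le_mul (Nat.pow_le_pow_left h2 m)
            rw [Nat.add_sub_cancel]
        _ = x ^ (4 * m + 2) := by rw [← pow_mul]; ring
  have h1 := hlaw ((Fin m → ℤ) × ℕ × ℕ) R (T f g) hRc (T_loc f g) X N D hXa (fun q hq hqN v hv hvq => hD q hq hqN v hv hvq)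
  refine le_trans ?_ h1
  apply mul_le_mul_of_nonneg_right _ (by positivity)
  refine Nat.cast_le.2 (Set.ncard_le_ncard ?_ ?_)
  swap
  · exact (Set.finite_Iic N).subset fun j hj => hj.2.1
  rintro j ⟨hj1, hj2, x, hx1, hx2, r, q, c, hq1, hq2, hc, hbad⟩
  rw [count_eq, expected_eq] at hbad
  refine ⟨hj1, hj2, x, hx1, hx2, (r, q, c), ?_, hbad⟩
  have hx2' : ¬ x < 2 := by omega
  rw [hR]
  simp only
  rw [if_neg hx2', mem_product, mem_product, Fintype.mem_piFinset, mem_Icc, mem_range]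
  refine ⟨?_, ⟨hq1, hq2⟩, lt_of_lt_of_le hc hq2⟩
  intro i
  rw [mem_Icc]
  by_contra hcon
  have hno : ∀ p ≤ x, ∀ n, p.Prime → ¬ T f g (r, q, c) p n := by
    intro p hp n _ hT
    apply hcon
    have h3 := (hT.2 i).2
    simp only at h3
    have h4 := solutions_le ((f i).eval n) ((g i).eval n) p
    have h5 : (solutions ((f i).eval n) ((g i).eval n) p : ℤ) ≤ (x : ℤ) ^ 2 := by
      have : solutions ((f i).eval n) ((g i).eval n) p ≤ x ^ 2 := h4.trans (Nat.pow_le_pow_left hp 2)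
      exact_mod_cast this
    have h6 : (p : ℤ) ≤ x := by exact_mod_cast hp
    have h7 : (x : ℤ) ≤ (x : ℤ) ^ 2 := by
      have : x ≤ x ^ 2 := by nlinarith
      exact_mod_cast this
    have h8 : (0 : ℤ) ≤ p := Int.natCast_nonneg p
    have h9 : (0 : ℤ) ≤ solutions ((f i).eval n) ((g i).eval n) p := Int.natCast_nonneg _
    constructor <;> linarith
  rw [Pool.Agent.T2H53.FL.cn_zero hno, Pool.Agent.T2H53.FL.vv_zero hno] at hbad
  have hx0 : (0 : ℝ) < (x : ℝ) ^ δ := Real.rpow_pos_of_pos (by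
    have : 0 < x := by omega
    exact_mod_cast this) _
  norm_num at hbad
  linarith

/-- The integers in an interval are equidistributed. -/
theorem level_id (N q : ℕ) (hq : 1 ≤ q) (v : ℤ) (hv : 0 ≤ v) (hvq : v < q) :
    |(((Ioc 0 N).filter (fun n : ℕ => ((n : ℕ) : ℤ) % (q : ℤ) = v)).card : ℝ) - (N : ℝ) / q| ≤ 1 := by
  obtain ⟨w, rfl⟩ := Int.eq_ofNat_of_zero_le hv
  have hwq : w < q := by exact_mod_cast hvq
  have h1 : (Ioc 0 N).filter (fun n : ℕ => ((n : ℕ) : ℤ) % (q : ℤ) = (w : ℤ)) = (Ioc 0 N).filter (fun n : ℕ => n ≡ w [MOD q]) := by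
    refine filter_congr fun n _ => ?_
    unfold Nat.ModEq
    rw [Nat.mod_eq_of_lt hwq]
    norm_cast
  rw [h1]
  have h2 := Nat.Ioc_filter_modEq_card 0 N (r := q) hq w
  have hq0 : (0 : ℚ) < q := by exact_mod_cast hq
  have f1 := Int.floor_le (((N : ℚ) - w) / q)
  have f2 := Int.lt_floor_add_one (((N : ℚ) - w) / q)
  have f3 := Int.floor_le ((((0 : ℕ) : ℚ) - w) / q)
  have f4 := Int.lt_floor_add_one ((((0 : ℕ) : ℚ) - w) / q)
  have h3 : (((Ioc 0 N).filter (fun n : ℕ => n ≡ w [MOD q])).card : ℚ) =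
      max ((⌊((N : ℚ) - w) / q⌋ : ℚ) - ⌊(((0 : ℕ) : ℚ) - w) / q⌋) 0 := by
    exact_mod_cast congrArg (fun z : ℤ => (z : ℚ)) h2
  have e : ((N : ℚ) - w) / q - (((0 : ℕ) : ℚ) - w) / q = N / q := by
    rw [← sub_div]
    push_cast
    ring
  have hNq : (0 : ℚ) ≤ N / q := by positivity
  have h4 : |(((Ioc 0 N).filter (fun n : ℕ => n ≡ w [MOD q])).card : ℚ) - (N : ℚ) / q| ≤ 1 := by
    rw [h3, abs_le]
    rcases max_cases ((⌊((N : ℚ) - w) / q⌋ : ℚ) - ⌊(((0 : ℕ) : ℚ) - w) / q⌋) 0 with ⟨h5, h6⟩ | ⟨h5, h6⟩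
    · rw [h5]
      constructor <;> linarith
    · rw [h5]
      constructor <;> linarith
  have h5 : ((|(((Ioc 0 N).filter (fun n : ℕ => n ≡ w [MOD q])).card : ℚ) - (N : ℚ) / q| : ℚ) : ℝ) ≤ ((1 : ℚ) : ℝ) := by
    exact_mod_cast h4
  push_cast at h5
  exact h5

/-- **Main theorem.** (1) For all `m`, `κ`, `δ > 0`, `θ > 0` and `C₁ ≥ 1` there are `W` and `X₀` such that for all integral
polynomials `f_i, g_i`, `i < m`, all `X ≥ X₀`, all `N` and all `D` with `Level θ C₁ D N` the number of the `1 ≤ j ≤ N` with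
`Bad f g δ W X N D_j` is at most `X ^ (-κ) N`. (2) The same for `Unlike f g ε W X N D_j`, for every `ε > 0`.
(3) The sequence `D_n = n` satisfies `Level 1 1 D N` for all `N ≥ 1`, and for all `k ≥ 2`, `x₀`, `0 < η < 1`, `A₀ ≥ 1` there are
`0 < θ` and `C₁ ≥ 1` such that `D_n = ⌊f(n)⌋` satisfies `Level θ C₁ D N` for all `N ≥ 1` and all `f` with `Regular k x₀ η A₀ f`.
(4) If `α ≠ 0` and `c > 0` are real and `c` is not an integer then there are `x₀` and `0 < η < 1` such that for all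
polynomials `P` with real coefficients of degree at most `⌊c⌋ + 1` the function `α x^c + P(x)` is
`Regular (⌊c⌋ + 2) x₀ η 4`; if `α ≠ 0` is real then there is `x₀` such that all functions `α x log x + β x + γ` are
`Regular 2 x₀ (1/2) 4`. -/
theorem result :
    (∀ (m κ : ℕ) (δ θ C₁ : ℝ), 0 < δ → 0 < θ → 1 ≤ C₁ → ∃ W X₀ : ℕ, 1 ≤ W ∧
      ∀ (f g : Fin m → ℤ[X]) (X N : ℕ) (D : ℕ → ℤ), X₀ ≤ X → Level θ C₁ D N →
        (({j : ℕ | 1 ≤ j ∧ j ≤ N ∧ Bad f g δ W X N (D j)}).ncard : ℝ) * (X : ℝ) ^ κ ≤ N) ∧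
    (∀ (m κ : ℕ) (ε θ C₁ : ℝ), 0 < ε → 0 < θ → 1 ≤ C₁ → ∃ W X₀ : ℕ, 1 ≤ W ∧
      ∀ (f g : Fin m → ℤ[X]) (X N : ℕ) (D : ℕ → ℤ), X₀ ≤ X → Level θ C₁ D N →
        (({j : ℕ | 1 ≤ j ∧ j ≤ N ∧ Unlike f g ε W X N (D j)}).ncard : ℝ) * (X : ℝ) ^ κ ≤ N) ∧
    ((∀ N : ℕ, 1 ≤ N → Level 1 1 (fun n => (n : ℤ)) N) ∧
      ∀ k : ℕ, 2 ≤ k → ∀ x₀ η A₀ : ℝ, 0 < η → η < 1 → 1 ≤ A₀ → ∃ θ C₁ : ℝ, 0 < θ ∧ 1 ≤ C₁ ∧
        ∀ f : ℝ → ℝ, Regular k x₀ η A₀ f → ∀ N : ℕ, 1 ≤ N → Level θ C₁ (fun n => ⌊f n⌋) N) ∧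
    ((∀ α c : ℝ, α ≠ 0 → 0 < c → (∀ n : ℕ, c ≠ n) → ∃ x₀ η : ℝ, 0 < η ∧ η < 1 ∧ ∀ P : ℝ[X],
      P.natDegree ≤ ⌊c⌋₊ + 1 → Regular (⌊c⌋₊ + 2) x₀ η 4 (fun x => α * x ^ c + P.eval x)) ∧
    (∀ α : ℝ, α ≠ 0 → ∃ x₀ : ℝ, ∀ β γ : ℝ, Regular 2 x₀ (1 / 2) 4 (fun x => α * (x * Real.log x) + β * x + γ))) := by
  refine ⟨fun m κ δ θ C₁ => law m κ δ θ C₁, ?_, ⟨?_, ?_⟩,
    fun α c hα hc hcn => Pool.Agent.T2H58.LU.regular_rpow α hα c hc hcn,
    fun α hα => Pool.Agent.T2H58.LU.regular_log α hα⟩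
  · intro m κ ε θ C₁ hε hθ hC₁
    obtain ⟨W, X₀, hW, h⟩ := law m κ (1 / 16) θ C₁ (by norm_num) hθ hC₁
    obtain ⟨X₁, hX₁⟩ := Pool.Agent.T2H53.FL.numeric ε hε
    refine ⟨W, max X₀ X₁, hW, fun f g X N D hX hD => ?_⟩
    refine le_trans ?_ (h f g X N D ((le_max_left _ _).trans hX) hD)
    apply mul_le_mul_of_nonneg_right _ (by positivity)
    refine Nat.cast_le.2 (Set.ncard_le_ncard ?_ ?_)
    swap
    · exact (Set.finite_Iic N).subset fun j hj => hj.2.1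
    rintro j ⟨hj1, hj2, x, hx1, hx2, r, q, c, hq1, hq2, hc, Y, hY, hcase⟩
    refine ⟨hj1, hj2, x, hx1, hx2, r, q, c, hq1, hq2, hc, ?_⟩
    by_contra hcon
    push Not at hcon
    have hnum := hX₁ x (((le_max_right _ _).trans hX).trans hx1) _ _ Y (expected_nonneg f g r q c x) hY hcon
    rcases hcase with ⟨h1, h2⟩ | ⟨h1, h2⟩
    · exact absurd (hnum.1 h1) (not_le.2 h2)
    · exact absurd (hnum.2 h1) (not_lt.2 h2)
  · intro N hN q hq hqN v hv hvq
    have h := level_id N q hq v hv hvq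
    rw [sub_self, Real.rpow_zero, mul_one]
    exact h
  · intro k hk x₀ η A₀ hη hη1 hA₀
    obtain ⟨θ, hθ, hθ1, C₁, hC₁, heq⟩ := Pool.Agent.T2H58.DQ.eq_reg k hk x₀ η hη hη1 A₀ hA₀
    exact ⟨θ, C₁, hθ, hC₁, fun f hf N hN q hq hqX v hv hvq => heq f hf N q hN hq hqX v hv hvq⟩

end Pool.Agent.Results.MP_631487_nt.FibresOverSequences
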