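import Pool.Agent.TH894.NE4

/-!
# Joint Lang–Trotter counts for polynomial families of elliptic curves and for twists of several forms by polynomial values

Let `E_{i, n} : Y ^ 2 = X ^ 3 + f_i(n) X + g_i(n)`, `i < m`, be any `m` families of elliptic curves and let `c_j`, `j < k`, be any
integer sequences (for example the Fourier coefficients of newforms of weight two), twisted by the values `F_j(n)`, where
`f_i`, `g_i`, `F_j` are arbitrary polynomials with integer coefficients in `d` parameters `n = (n_1, …, n_d)`. For almost all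
parameters which arise from arbitrary integers by changing a few digits, the number of the primes `p` at which ALL the traces
`a_p(E_{i, n})` and ALL the twisted coefficients `(F_j(n) / p) c_j(p)` lie in given intervals (for example are given integers)
is the expected one, for all intervals, all residue classes of `p` and all ranges of `p` at once, with the square root of the main
term as error, and uniformly in ALL the families and sequences.

Nothing is used besides Mathlib in the statement.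
-/

set_option autoImplicit false

namespace Pool.Agent.Results.MP_631487_nt.PolynomialFamilies

open Finset

/-- The number of the points over `F_p` (together with the point at infinity) of `Y ^ 2 = X ^ 3 + a X + b`. -/
def points (p : ℕ) (a b : ℤ) : ℕ :=
  ((range p ×ˢ range p).filter (fun xy => (p : ℤ) ∣ (xy.2 : ℤ) ^ 2 - ((xy.1 : ℤ) ^ 3 + a * xy.1 + b))).card + 1

/-- The trace `a_p` of the curve `Y ^ 2 = X ^ 3 + a X + b` at `p`. -/
def trace (p : ℕ) (a b : ℤ) : ℤ := p + 1 - points p a b

/-- The value of a polynomial in `d` variables at natural numbers. -/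
noncomputable def val {d : ℕ} (n : Fin d → ℕ) (F : MvPolynomial (Fin d) ℤ) : ℤ := MvPolynomial.eval (fun l => (n l : ℤ)) F

/-- `m` families of curves `Y ^ 2 = X ^ 3 + f i (n) X + g i (n)` and `k` integer sequences `c j`, twisted by `F j (n)`. -/
structure Families (d m k : ℕ) where
  /-- the coefficients at `X` -/
  f : Fin m → MvPolynomial (Fin d) ℤ
  /-- the constant coefficients -/
  g : Fin m → MvPolynomial (Fin d) ℤ
  /-- the twists -/
  F : Fin k → MvPolynomial (Fin d) ℤ
  /-- the sequences which are twisted -/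
  c : Fin k → ℕ → ℤ
  /-- a weak bound for the sequences -/
  bound : ∀ j p, |c j p| ≤ (p : ℤ) ^ 2

/-- Intervals `[s i, t i]` for the traces and `[u j, v j]` for the twisted coefficients. -/
structure Box (m k : ℕ) where
  /-- lower ends for the traces -/
  s : Fin m → ℤ
  /-- upper ends for the traces -/
  t : Fin m → ℤ
  /-- lower ends for the twisted coefficients -/
  u : Fin k → ℤ
  /-- upper ends for the twisted coefficients -/
  v : Fin k → ℤ

/-- All the curves `Y ^ 2 = X ^ 3 + f i (n) X + g i (n)` are smooth modulo `p ≠ 2` with trace in `[s i, t i]`, and for all `j`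
the number `F j (n)` is prime to `p` and `(F j (n) / p) c j (p)` is in `[u j, v j]`. -/
def InBox {d m k : ℕ} (Φ : Families d m k) (B : Box m k) (p : ℕ) (n : Fin d → ℕ) : Prop :=
  (∀ i, ¬ (p : ℤ) ∣ 2 * (4 * val n (Φ.f i) ^ 3 + 27 * val n (Φ.g i) ^ 2) ∧
    B.s i ≤ trace p (val n (Φ.f i)) (val n (Φ.g i)) ∧ trace p (val n (Φ.f i)) (val n (Φ.g i)) ≤ B.t i) ∧
  ∀ j, ¬ (p : ℤ) ∣ val n (Φ.F j) ∧
    B.u j ≤ jacobiSym (val n (Φ.F j)) p * Φ.c j p ∧ jacobiSym (val n (Φ.F j)) p * Φ.c j p ≤ B.v j

/-- The odd primes `p` with `z < p ≤ x` in the residue class of `a` modulo `q`. -/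
def primes (z x q a : ℕ) : Finset ℕ := (Ioc z x).filter (fun p => p.Prime ∧ p ≠ 2 ∧ p % q = a)

open Classical in
/-- The number of the odd primes `z < p ≤ x`, `p ≡ a mod q`, for which all the curves with the parameter `n` have good
reduction, and all the traces and twisted coefficients are in the given intervals. -/
noncomputable def count {d m k : ℕ} (Φ : Families d m k) (n : Fin d → ℕ) (B : Box m k) (z x q a : ℕ) : ℕ :=
  ((primes z x q a).filter (fun p => InBox Φ B p n)).card

open Classical in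
/-- The sum over the odd primes `z < p ≤ x`, `p ≡ a mod q`, of the proportion of the parameters modulo `p` for which all the
curves have good reduction, and all the traces and twisted coefficients are in the given intervals. -/
noncomputable def expected {d m k : ℕ} (Φ : Families d m k) (B : Box m k) (z x q a : ℕ) : ℝ :=
  ∑ p ∈ primes z x q a, (((Fintype.piFinset (fun _ : Fin d => range p)).filter (fun n => InBox Φ B p n)).card : ℝ) /
    (p : ℝ) ^ d

/-- For all intervals of traces and twisted coefficients, all `(z, x]` and all residue classes the number of the primes in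
question differs from the expected number `V` by at most `(max 1 V) ^ (1 / 2) x ^ δ`. -/
noncomputable def Good {d m k : ℕ} (Φ : Families d m k) (δ : ℝ) (x : ℕ) (n : Fin d → ℕ) : Prop :=
  ∀ (B : Box m k) (z q a : ℕ), |(count Φ n B z x q a : ℝ) - expected Φ B z x q a| ≤
    Real.sqrt (max 1 (expected Φ B z x q a)) * (x : ℝ) ^ δ

/-- The digit number `i` (counted from the right, beginning with `0`) of `n` in base `b`. -/
def digit (b i n : ℕ) : ℕ := n / b ^ i % b

/-- The number which arises from the number `N` with at most `K` digits in base `b`, if for every `i ∈ S`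
the digit number `i` is replaced by `φ i`. -/
def change (b K N : ℕ) (φ : ℕ → ℕ) (S : Finset ℕ) : ℕ :=
  ∑ i ∈ range K, (if i ∈ S then φ i else digit b i N) * b ^ i

open Classical in
/-- The number of the choices of `r l` of `K l` positions for all `l < d` for which the vector of the numbers obtained by
changing the digits of `N l` at the chosen positions (according to `φ l`) does not have the property `E`. -/
noncomputable def exceptions {d : ℕ} (b : ℕ) (K r N : Fin d → ℕ) (φ : Fin d → ℕ → ℕ) (E : (Fin d → ℕ) → Prop) : ℕ :=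
  ((Fintype.piFinset (fun l => powersetCard (r l) (range (K l)))).filter
    (fun S => ¬ E (fun l => change b (K l) (N l) (φ l) (S l)))).card

lemma points_congr {p : ℕ} {a a' b b' : ℤ} (ha : (p : ℤ) ∣ a - a') (hb : (p : ℤ) ∣ b - b') : points p a b = points p a' b' := by
  unfold points
  congr 2
  apply filter_congr
  intro xy _
  have h : (p : ℤ) ∣ ((xy.2 : ℤ) ^ 2 - ((xy.1 : ℤ) ^ 3 + a' * xy.1 + b')) - ((xy.2 : ℤ) ^ 2 - ((xy.1 : ℤ) ^ 3 + a * xy.1 + b)) := by
    have h1 : ((xy.2 : ℤ) ^ 2 - ((xy.1 : ℤ) ^ 3 + a' * xy.1 + b')) - ((xy.2 : ℤ) ^ 2 - ((xy.1 : ℤ) ^ 3 + a * xy.1 + b)) =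
        (a - a') * xy.1 + (b - b') := by ring
    rw [h1]
    exact dvd_add (Dvd.dvd.mul_right ha _) hb
  constructor
  · intro h2
    have := dvd_add h h2
    rwa [sub_add_cancel] at this
  · intro h2
    have := dvd_sub h2 h
    rwa [sub_sub_cancel] at this

lemma smooth_congr {p : ℕ} {a a' b b' : ℤ} (ha : (p : ℤ) ∣ a - a') (hb : (p : ℤ) ∣ b - b') :
    (p : ℤ) ∣ 2 * (4 * a ^ 3 + 27 * b ^ 2) ↔ (p : ℤ) ∣ 2 * (4 * a' ^ 3 + 27 * b' ^ 2) := by
  have h : (p : ℤ) ∣ 2 * (4 * a ^ 3 + 27 * b ^ 2) - 2 * (4 * a' ^ 3 + 27 * b' ^ 2) := by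
    have h1 : 2 * (4 * a ^ 3 + 27 * b ^ 2) - 2 * (4 * a' ^ 3 + 27 * b' ^ 2) =
        (a - a') * (8 * (a ^ 2 + a * a' + a' ^ 2)) + (b - b') * (54 * (b + b')) := by ring
    rw [h1]
    exact dvd_add (Dvd.dvd.mul_right ha _) (Dvd.dvd.mul_right hb _)
  constructor
  · intro h2
    have := dvd_sub h2 h
    rwa [sub_sub_cancel] at this
  · intro h2
    have := dvd_add h h2
    rwa [sub_add_cancel] at this

lemma val_congr {d p : ℕ} {n n' : Fin d → ℕ} (h : ∀ l, (p : ℤ) ∣ (n l : ℤ) - n' l) (F : MvPolynomial (Fin d) ℤ) :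
    (p : ℤ) ∣ val n F - val n' F := by
  rw [← ZMod.intCast_zmod_eq_zero_iff_dvd, Int.cast_sub, sub_eq_zero]
  unfold val
  have key : ∀ k : Fin d → ℕ, ((MvPolynomial.eval (fun l => (k l : ℤ)) F : ℤ) : ZMod p) =
      MvPolynomial.eval₂ (Int.castRingHom (ZMod p)) (fun l => ((k l : ℤ) : ZMod p)) F := by
    intro k
    have := MvPolynomial.eval₂_comp_left (Int.castRingHom (ZMod p)) (RingHom.id ℤ) (fun l => (k l : ℤ)) F
    rw [MvPolynomial.eval₂_id] at this
    simpa [Function.comp_def] using this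
  rw [key n, key n']
  congr 1
  funext l
  rw [← sub_eq_zero, ← Int.cast_sub, ZMod.intCast_zmod_eq_zero_iff_dvd]
  exact h l

lemma jac_congr {p : ℕ} {a a' : ℤ} (h : (p : ℤ) ∣ a - a') : jacobiSym a p = jacobiSym a' p := by
  apply jacobiSym.mod_left'
  exact Int.emod_eq_emod_iff_emod_sub_eq_zero.mpr (Int.emod_eq_zero_of_dvd h)

lemma inBox_mod {d m k : ℕ} (Φ : Families d m k) (B : Box m k) (p : ℕ) (n : Fin d → ℕ) :
    InBox Φ B p n ↔ InBox Φ B p (fun l => n l % p) := by
  have h : ∀ l, (p : ℤ) ∣ (n l : ℤ) - ((n l % p : ℕ) : ℤ) := by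
    intro l
    rw [Int.natCast_mod]
    exact Int.dvd_self_sub_emod
  have e1 : ∀ i, points p (val n (Φ.f i)) (val n (Φ.g i)) =
      points p (val (fun l => n l % p) (Φ.f i)) (val (fun l => n l % p) (Φ.g i)) :=
    fun i => points_congr (val_congr h (Φ.f i)) (val_congr h (Φ.g i))
  have e2 : ∀ j, jacobiSym (val n (Φ.F j)) p = jacobiSym (val (fun l => n l % p) (Φ.F j)) p :=
    fun j => jac_congr (val_congr h (Φ.F j))
  have e3 : ∀ j, (p : ℤ) ∣ val n (Φ.F j) ↔ (p : ℤ) ∣ val (fun l => n l % p) (Φ.F j) := by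
    intro j
    have h2 := val_congr h (Φ.F j)
    constructor
    · intro h3
      have := dvd_sub h3 h2
      rwa [sub_sub_cancel] at this
    · intro h3
      have := dvd_add h2 h3
      rwa [sub_add_cancel] at this
  unfold InBox trace
  refine and_congr (forall_congr' fun i => ?_) (forall_congr' fun j => ?_)
  · rw [e1 i, smooth_congr (val_congr h (Φ.f i)) (val_congr h (Φ.g i))]
  · rw [e2 j, e3 j]

lemma points_le (p : ℕ) (a b : ℤ) : points p a b ≤ p * p + 1 := by
  unfold points
  refine Nat.succ_le_succ ((card_filter_le _ _).trans ?_)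
  rw [card_product, card_range]

lemma trace_abs {p x : ℕ} (h : p ≤ x) (a b : ℤ) : |trace p a b| ≤ (x : ℤ) ^ 2 + 1 := by
  have h1 : (points p a b : ℤ) ≤ p * p + 1 := by exact_mod_cast points_le p a b
  have h2 : (1 : ℤ) ≤ points p a b := by
    have : 1 ≤ points p a b := by unfold points; omega
    exact_mod_cast this
  have h3 : (p : ℤ) ≤ x := by exact_mod_cast h
  have h4 : (0 : ℤ) ≤ p := by positivity
  unfold trace
  rw [abs_le]
  constructor <;> nlinarith

lemma coef_abs {d m k : ℕ} (Φ : Families d m k) {p x : ℕ} (h : p ≤ x) (a : ℤ) (j : Fin k) :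
    |jacobiSym a p * Φ.c j p| ≤ (x : ℤ) ^ 2 + 1 := by
  have h1 := Φ.bound j p
  have h3 : (p : ℤ) ≤ x := by exact_mod_cast h
  have h4 : (0 : ℤ) ≤ p := by positivity
  have h5 : (p : ℤ) ^ 2 ≤ (x : ℤ) ^ 2 := by nlinarith
  have h6 : |jacobiSym a p| ≤ 1 := by
    rcases jacobiSym.trichotomy a p with h | h | h <;> simp [h]
  rw [abs_mul]
  have h7 := abs_nonneg (Φ.c j p)
  have h8 := abs_nonneg (jacobiSym a p)
  nlinarith

/-- the ends of the intervals can be bounded -/
def cl (x : ℕ) (s : ℤ) : ℤ := max (-((x : ℤ) ^ 2 + 2)) (min s ((x : ℤ) ^ 2 + 2))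

lemma cl_mem (x : ℕ) (s : ℤ) : cl x s ∈ Icc (-((x : ℤ) ^ 2 + 2)) ((x : ℤ) ^ 2 + 2) := by
  rw [mem_Icc]
  unfold cl
  have : (0 : ℤ) ≤ (x : ℤ) ^ 2 := by positivity
  constructor
  · exact le_max_left _ _
  · exact max_le (by linarith) (min_le_right _ _)

lemma cl_le {x : ℕ} {s w : ℤ} (h : |w| ≤ (x : ℤ) ^ 2 + 1) : cl x s ≤ w ↔ s ≤ w := by
  unfold cl
  have h1 := abs_le.1 h
  constructor
  · intro h2
    have h3 := (max_le_iff.1 h2).2
    rcases min_le_iff.1 h3 with h4 | h4
    · exact h4
    · exact absurd h4 (by linarith [h1.2])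
  · intro h2
    exact max_le (by linarith [h1.1]) ((min_le_left _ _).trans h2)

lemma le_cl {x : ℕ} {t w : ℤ} (h : |w| ≤ (x : ℤ) ^ 2 + 1) : w ≤ cl x t ↔ w ≤ t := by
  unfold cl
  have h1 := abs_le.1 h
  constructor
  · intro h2
    rcases le_max_iff.1 h2 with h3 | h3
    · exact absurd h3 (by linarith [h1.1])
    · exact h3.trans (min_le_left _ _)
  · intro h2
    exact le_max_of_le_right (le_min h2 (by linarith [h1.2]))

lemma inBox_cl {d m k : ℕ} (Φ : Families d m k) (B : Box m k) {p x : ℕ} (h : p ≤ x) (n : Fin d → ℕ) :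
    InBox Φ B p n ↔ InBox Φ ⟨fun i => cl x (B.s i), fun i => cl x (B.t i), fun j => cl x (B.u j), fun j => cl x (B.v j)⟩ p n := by
  unfold InBox
  refine and_congr (forall_congr' fun i => ?_) (forall_congr' fun j => ?_)
  · show _ ↔ _ ∧ cl x (B.s i) ≤ _ ∧ _ ≤ cl x (B.t i)
    rw [cl_le (trace_abs h _ _), le_cl (trace_abs h _ _)]
  · show _ ↔ _ ∧ cl x (B.u j) ≤ _ ∧ _ ≤ cl x (B.v j)
    rw [cl_le (coef_abs Φ h _ j), le_cl (coef_abs Φ h _ j)]

/-- Trivial cases: at most one prime. -/
lemma good_of_card {d m k : ℕ} (Φ : Families d m k) (δ : ℝ) (hδ : 0 < δ) (x : ℕ) (hx : 1 ≤ x) (n : Fin d → ℕ)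
    (B : Box m k) (z q a : ℕ) (h : (primes z x q a).card ≤ 1) :
    |(count Φ n B z x q a : ℝ) - expected Φ B z x q a| ≤ Real.sqrt (max 1 (expected Φ B z x q a)) * (x : ℝ) ^ δ := by
  classical
  have hx1 : (1 : ℝ) ≤ x := by exact_mod_cast hx
  have h1 : (count Φ n B z x q a : ℝ) ≤ 1 := by
    have : count Φ n B z x q a ≤ 1 := (card_filter_le _ _).trans h
    exact_mod_cast this
  have h0 : (0 : ℝ) ≤ count Φ n B z x q a := Nat.cast_nonneg _
  have h2 : 0 ≤ expected Φ B z x q a := sum_nonneg fun p _ => by positivity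
  have h3 : expected Φ B z x q a ≤ 1 := by
    have e : expected Φ B z x q a = ∑ p ∈ primes z x q a, Pool.Agent.TH894.NE.Pr d p (fun n => InBox Φ B p n) := by
      unfold expected Pool.Agent.TH894.NE.Pr Pool.Agent.TH894.NE.box
      rfl
    rw [e]
    calc _ ≤ ∑ p ∈ primes z x q a, (1 : ℝ) := sum_le_sum fun p _ => Pool.Agent.TH894.NE.Pr_le_one d p _
      _ = ((primes z x q a).card : ℝ) := by simp
      _ ≤ 1 := by exact_mod_cast h
  have h4 : 1 ≤ Real.sqrt (max 1 (expected Φ B z x q a)) * (x : ℝ) ^ δ := by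
    have h5 : 1 ≤ Real.sqrt (max 1 (expected Φ B z x q a)) := by
      rw [Real.one_le_sqrt]; exact le_max_left _ _
    have h6 : (1 : ℝ) ≤ (x : ℝ) ^ δ := Real.one_le_rpow hx1 hδ.le
    nlinarith
  refine le_trans ?_ h4
  rw [abs_le]
  constructor <;> linarith

/-- Let a base `b ≥ 2`, a number `d ≥ 1` of parameters, numbers `m`, `k`, `δ > 0` and an integer `A ≥ 0` be given. There are
`c > 0` and `y₀` such that for ALL data `Φ` (`m` families `Y ^ 2 = X ^ 3 + f i (n) X + g i (n)` with polynomials `f i`, `g i` in `d`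
variables with integer coefficients, and `k` integer sequences `c j` with `|c j (p)| ≤ p ^ 2`, twisted by arbitrary polynomials
`F j`) and for all integers `r l`, `K l`, `y` with `2 r l ≤ K l` and `y ≥ y₀` the following holds.

Let `0 ≤ N l < b ^ K l` be arbitrary integers and prescribe for every position `j` a digit `φ l j` different from the digit of
`N l` in base `b` (`l < d`). If one chooses `r l` of the `K l` positions and replaces the digits of `N l` at these positions, then
for all but at most a proportion `1 / y ^ A` of the choices the parameters `n l` obtained have the following property: for all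
integers `x` with `y ≤ x ≤ exp (c r l)` (`l < d`), all intervals `[s i, t i]`, `[u j, v j]`, all `z` and all `q`, `a` the number of
the odd primes `z < p ≤ x`, `p ≡ a mod q`, for which for ALL `i < m` the curve number `i` with the parameter `n` has good
reduction and its trace `a_p` is in `[s i, t i]`, and for ALL `j < k` the number `F j (n)` is prime to `p` and the twisted
coefficient `(F j (n) / p) c j (p)` is in `[u j, v j]`, differs from its expected value `V` (the sum over these primes of the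
proportion of the parameters modulo `p` with this property) by at most `(max 1 V) ^ (1 / 2) x ^ δ`.

With `s i = t i`, `u j = v j` these are the counts of Lang and Trotter, for all prescribed traces at once. -/
theorem result (b d m k : ℕ) (hb : 2 ≤ b) (hd : 1 ≤ d) (δ : ℝ) (hδ : 0 < δ) (A : ℕ) : ∃ c : ℝ, 0 < c ∧ ∃ y₀ : ℕ,
    ∀ (Φ : Families d m k) (K r : Fin d → ℕ) (y : ℕ), (∀ l, 2 * r l ≤ K l) → y₀ ≤ y →
    ∀ N : Fin d → ℕ, (∀ l, N l < b ^ K l) → ∀ φ : Fin d → ℕ → ℕ, (∀ l j, φ l j < b ∧ φ l j ≠ digit b j (N l)) →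
      (exceptions b K r N φ (fun n => ∀ x : ℕ, y ≤ x → (∀ l, (x : ℝ) ≤ Real.exp (c * r l)) → Good Φ δ x n) : ℝ) ≤
        1 / (y : ℝ) ^ A * ∏ l, ((K l).choose (r l) : ℝ) := by
  classical
  obtain ⟨c, hc, x₀, h⟩ := Pool.Agent.TH894.NE.law2 b d hb hd δ A ((8 * (m + k) + 5 : ℕ) : ℝ) hδ
  refine ⟨c, hc, x₀ + 3, fun Φ K r y hrK hy N hN φ hφ => ?_⟩
  have hy0 : (0 : ℝ) < y := by exact_mod_cast (by omega : 0 < y)
  have h1 : 1 / (y : ℝ) ^ A = (y : ℝ) ^ (-(A : ℝ)) := by
    rw [Real.rpow_neg hy0.le, Real.rpow_natCast, one_div]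
  rw [h1]
  unfold exceptions
  obtain ⟨Λ, hΛ⟩ : ∃ Λ : ℕ → Finset (((Fin m → ℤ) × (Fin m → ℤ)) × ((Fin k → ℤ) × (Fin k → ℤ)) × ℕ × ℕ × ℕ),
    Λ = fun x : ℕ => if x < 2 then ∅ else
      (Fintype.piFinset (fun _ : Fin m => Icc (-((x : ℤ) ^ 2 + 2)) ((x : ℤ) ^ 2 + 2)) ×ˢ
        Fintype.piFinset (fun _ : Fin m => Icc (-((x : ℤ) ^ 2 + 2)) ((x : ℤ) ^ 2 + 2))) ×ˢ
      ((Fintype.piFinset (fun _ : Fin k => Icc (-((x : ℤ) ^ 2 + 2)) ((x : ℤ) ^ 2 + 2)) ×ˢ
        Fintype.piFinset (fun _ : Fin k => Icc (-((x : ℤ) ^ 2 + 2)) ((x : ℤ) ^ 2 + 2))) ×ˢ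
      (range x ×ˢ (range (x + 1) ×ˢ range (x + 1)))) := ⟨_, rfl⟩
  refine h r K y hrK (by omega) N hN φ hφ (((Fin m → ℤ) × (Fin m → ℤ)) × ((Fin k → ℤ) × (Fin k → ℤ)) × ℕ × ℕ × ℕ)
    Λ ?_ ℕ (fun x l => primes l.2.2.1 x l.2.2.2.1 l.2.2.2.2) (fun _ p => p) ?_ ?_
    (fun l p n => InBox Φ ⟨l.1.1, l.1.2, l.2.1.1, l.2.1.2⟩ p n) ?_ _
    (filter_subset _ _) ?_
  · intro x _
    rw [hΛ]
    show (((if x < 2 then ∅ else _ :
      Finset (((Fin m → ℤ) × (Fin m → ℤ)) × ((Fin k → ℤ) × (Fin k → ℤ)) × ℕ × ℕ × ℕ)).card : ℕ) : ℝ) ≤ _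
    split_ifs with hx
    · rw [card_empty, Nat.cast_zero]
      positivity
    · push Not at hx
      have e0 : (Icc (-((x : ℤ) ^ 2 + 2)) ((x : ℤ) ^ 2 + 2)).card = 2 * x ^ 2 + 5 := by
        rw [Int.card_Icc]
        have : (x : ℤ) ^ 2 + 2 + 1 - -((x : ℤ) ^ 2 + 2) = ((2 * x ^ 2 + 5 : ℕ) : ℤ) := by push_cast; ring
        rw [this, Int.toNat_natCast]
      rw [card_product, card_product, card_product, card_product, card_product, card_product, Fintype.card_piFinset,
        Fintype.card_piFinset, card_range, card_range, e0, prod_const, prod_const,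
        card_univ, card_univ, Fintype.card_fin, Fintype.card_fin, Real.rpow_natCast]
      have e1 : 2 * x ^ 2 + 5 ≤ x ^ 4 := by
        have : 4 ≤ x ^ 2 := by nlinarith
        have e : x ^ 4 = x ^ 2 * x ^ 2 := by ring
        rw [e]
        nlinarith
      have e2 : x + 1 ≤ x ^ 2 := by nlinarith
      have e3 : ((2 * x ^ 2 + 5) ^ m * (2 * x ^ 2 + 5) ^ m) * (((2 * x ^ 2 + 5) ^ k * (2 * x ^ 2 + 5) ^ k) *
          (x * ((x + 1) * (x + 1)))) ≤ x ^ (8 * (m + k) + 5) := by
        calc _ ≤ ((x ^ 4) ^ m * (x ^ 4) ^ m) * (((x ^ 4) ^ k * (x ^ 4) ^ k) * (x * (x ^ 2 * x ^ 2))) := by gcongr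
          _ = x ^ (8 * (m + k) + 5) := by
            rw [← pow_mul, ← pow_mul, ← pow_add, ← pow_add, pow_add, show 8 * (m + k) = (4 * m + 4 * m) + (4 * k + 4 * k) by ring,
              pow_add]
            ring
      exact_mod_cast e3
  · intro x l _ p hp
    unfold primes at hp
    rw [mem_filter, mem_Ioc] at hp
    exact ⟨hp.2.1.one_lt.le, by omega⟩
  · intro x l _ p hp p' hp' hne
    unfold primes at hp hp'
    rw [mem_filter] at hp hp'
    exact (Nat.coprime_primes hp.2.1 hp'.2.1).2 hne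
  · intro x t _ p _ n
    exact inBox_mod Φ _ p n
  · intro S hS
    rw [mem_filter] at hS
    obtain ⟨_, hS2⟩ := hS
    unfold Good at hS2
    push Not at hS2
    obtain ⟨x, hyx, hxr, B, z, q, a, hlt⟩ := hS2
    have hx0 : (0 : ℝ) < x := by exact_mod_cast (by omega : 0 < x)
    obtain ⟨n, hn⟩ : ∃ n : Fin d → ℕ, n = fun l => change b (K l) (N l) (φ l) (S l) := ⟨_, rfl⟩
    obtain ⟨B', hB'⟩ : ∃ B' : Box m k, B' =
      ⟨fun i => cl x (B.s i), fun i => cl x (B.t i), fun j => cl x (B.u j), fun j => cl x (B.v j)⟩ := ⟨_, rfl⟩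
    have hle : ∀ p ∈ primes z x q a, p ≤ x := by
      intro p hp
      unfold primes at hp
      rw [mem_filter, mem_Ioc] at hp
      exact hp.1.2
    have hcount : (count Φ n B z x q a : ℝ) = (((primes z x q a).filter (fun p => InBox Φ B' p n)).card : ℝ) := by
      unfold count
      congr 2
      apply filter_congr
      intro p hp
      rw [hB']
      exact inBox_cl Φ B (hle p hp) n
    have hexp : expected Φ B z x q a = ∑ p ∈ primes z x q a, Pool.Agent.TH894.NE.Pr d p (fun n => InBox Φ B' p n) := by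
      unfold expected
      apply sum_congr rfl
      intro p hp
      unfold Pool.Agent.TH894.NE.Pr Pool.Agent.TH894.NE.box
      have e : (Fintype.piFinset (fun _ : Fin d => range p)).filter (fun n => InBox Φ B p n) =
          (Fintype.piFinset (fun _ : Fin d => range p)).filter (fun n => InBox Φ B' p n) := by
        apply filter_congr
        intro n _
        rw [hB']
        exact inBox_cl Φ B (hle p hp) n
      rw [e]
    rw [← hn] at hlt
    -- the parameters are bounded
    have hcard : ¬ (primes z x q a).card ≤ 1 := fun hcd =>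
      absurd hlt (not_lt.2 (good_of_card Φ δ hδ x (by omega) n B z q a hcd))
    have hz : z < x := by
      by_contra hcon
      apply hcard
      unfold primes
      rw [Ioc_eq_empty (by omega), filter_empty, card_empty]
      omega
    have hq : q < x + 1 := by
      by_contra hcon
      apply hcard
      rw [card_le_one]
      intro p hp p' hp'
      unfold primes at hp hp'
      rw [mem_filter, mem_Ioc] at hp hp'
      have h3 := hp.2.2.2
      have h4 := hp'.2.2.2
      rw [Nat.mod_eq_of_lt (by omega)] at h3 h4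
      omega
    have ha : a < x + 1 := by
      by_contra hcon
      apply hcard
      rw [card_le_one]
      intro p hp p' hp'
      unfold primes at hp hp'
      rw [mem_filter, mem_Ioc] at hp hp'
      have h3 := hp.2.2.2
      have h4 := Nat.mod_le p q
      omega
    refine ⟨x, hyx, fun l => (Real.log_le_iff_le_exp hx0).2 (hxr l), ((B'.s, B'.t), (B'.u, B'.v), z, q, a), ?_, ?_⟩
    · rw [hΛ]
      show _ ∈ (if x < 2 then ∅ else _ : Finset (((Fin m → ℤ) × (Fin m → ℤ)) × ((Fin k → ℤ) × (Fin k → ℤ)) × ℕ × ℕ × ℕ))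
      rw [if_neg (by omega)]
      rw [hB']
      simp only [mem_product, mem_range, Fintype.mem_piFinset]
      exact ⟨⟨fun i => cl_mem _ _, fun i => cl_mem _ _⟩, ⟨fun j => cl_mem _ _, fun j => cl_mem _ _⟩, hz, hq, ha⟩
    · rw [hcount, hexp, hn] at hlt
      exact hlt

end Pool.Agent.Results.MP_631487_nt.PolynomialFamilies
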