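import Pool.Agent.T2H67.LT.Transfer
import Pool.Agent.T2H58.DQ.Eq

set_option autoImplicit false

/-!
# Lang-Trotter counts of several forms twisted along sequences with a level of distribution

Let `a_1, …, a_m` be integer sequences, for example the coefficients of `m` newforms of weight `2` with integer coefficients, and
`g_1, …, g_m` polynomials in `ℤ[t]` of degree between `1` and `d` with product `G`. If `χ` is the quadratic character attached to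
the integer `D ≠ 0` then the `p`-th coefficient of the twist `f ⊗ χ` of the form `f = ∑ a(n) q^n` is `(D / p) a(p)` at all primes
`p ∤ 2 D`. Let `D_1, …, D_N` be integers which are equidistributed modulo all `q ≤ N^θ` with an error of at most `C₁ N^(1 - θ)`,
for example `D_j = ⌊f(j)⌋` for a smooth real function `f` which is not too close to a polynomial (Piatetski-Shapiro sequences),
or `D_j = j`.

(1) For all `j` up to a proportion of at most `X ^ (-κ)` (any `κ`) the following holds for ALL `x ≥ X` up to a fixed power of `N`,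
ALL non-zero `r_1, …, r_m` and all residue classes `c` modulo `q ≤ x`: the number of the odd primes `p ≤ x`, `p ≡ c` modulo `q`, with
`(g_i(D_j) / p) a_i(p) = r_i` for all `i`, is `2 ^ (-m)` times the number `M` of the odd primes `p ≤ x`, `p ≡ c` modulo `q`, with
`a_i(p) = ± r_i` for all `i`, with an error of at most `√(max 1 M) x ^ δ` plus the number of the `p ≤ x` which divide the leading
coefficient of `G` or the resultant of `G` and `G'`. The constants depend neither on the sequences `a_i` nor on the `g_i`.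

(2) Consequently few of the twists of a form decide the bound of Lang and Trotter for the form: for `g` without multiple roots, all
`C, ε > 0` and all `j` up to a proportion of at most `X ^ (-κ)` it holds for all `x ≥ X` up to a fixed power of `N` and ALL `r ≠ 0`
that if `a(p) = ± r` for at most `C √x / log x` primes `p ≤ x` then `(g(D_j) / p) a(p) = r` for at most `(C / 2 + ε) √x / log x` of
them, and if `a(p) = ± r` for more than `C √x / log x` primes `p ≤ x` then `(g(D_j) / p) a(p) = r` for more than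
`(C / 2 - ε) √x / log x` of them.
-/

namespace Pool.Agent.Results.MP_631487_nt.RealPowerTwists

open Finset Polynomial

/-- `f` is `k` times differentiable at all `x ≥ x₀` (with derivatives `F 0 = f`, `F 1`, ..., `F k`), and `f^(k)` or
`-f^(k)` is nonincreasing on `[x₀, ∞)`, between `x ^ (-2 + η)` and `x ^ (-η)`, and at most `A` times its value at
`2 x`. -/
def Regular (k : ℕ) (x₀ η A : ℝ) (f : ℝ → ℝ) : Prop :=
  ∃ F : ℕ → ℝ → ℝ, F 0 = f ∧ (∀ j < k, ∀ x, x₀ ≤ x → HasDerivAt (F j) (F (j + 1) x) x) ∧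
    ∃ s : ℝ, (s = 1 ∨ s = -1) ∧ (∀ x, x₀ ≤ x → x ^ (-2 + η) ≤ s * F k x ∧ s * F k x ≤ x ^ (-η) ∧
      s * F k x ≤ A * (s * F k (2 * x))) ∧ ∀ x y, x₀ ≤ x → x ≤ y → s * F k y ≤ s * F k x

/-- For all `1 ≤ q ≤ N ^ θ` and all residues `v` modulo `q` the number of the `1 ≤ n ≤ N` with `D_n ≡ v` modulo `q` is `N / q` up to
an error of at most `C N ^ (1 - θ)`. -/
def Level (θ C : ℝ) (D : ℕ → ℤ) (N : ℕ) : Prop :=
  ∀ q : ℕ, 1 ≤ q → (q : ℝ) ≤ (N : ℝ) ^ θ → ∀ v : ℤ, 0 ≤ v → v < q →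
    |(((Ioc 0 N).filter (fun n => D n % (q : ℤ) = v)).card : ℝ) - (N : ℝ) / q| ≤ C * (N : ℝ) ^ (1 - θ)

open Classical in
/-- the number of the odd primes `p ≤ x` with `p % q = c` and `(D_i / p) a_i(p) = r_i` for all `i` -/
noncomputable def count {m : ℕ} (a : Fin m → ℕ → ℤ) (D r : Fin m → ℤ) (q c x : ℕ) : ℕ :=
  ((range (x + 1)).filter (fun p => p.Prime ∧ p ≠ 2 ∧ p % q = c ∧ ∀ i, jacobiSym (D i) p * a i p = r i)).card

open Classical in
/-- the number of the odd primes `p ≤ x` with `p % q = c` and `a_i(p) = ± r_i` for all `i` -/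
noncomputable def base {m : ℕ} (a : Fin m → ℕ → ℤ) (r : Fin m → ℤ) (q c x : ℕ) : ℕ :=
  ((range (x + 1)).filter (fun p => p.Prime ∧ p ≠ 2 ∧ p % q = c ∧ ∀ i, a i p = r i ∨ a i p = - r i)).card

open Classical in
/-- the number of the primes `p ≤ x` dividing the leading coefficient of `G` or the resultant of `G` and its derivative -/
noncomputable def ram (G : ℤ[X]) (x : ℕ) : ℕ :=
  ((range (x + 1)).filter (fun p : ℕ => p.Prime ∧
    ((p : ℤ) ∣ G.leadingCoeff ∨ (p : ℤ) ∣ resultant G G.derivative))).card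

/-- For some `x ≥ X` with `x ^ W ≤ N`, some non-zero `r_1, …, r_m`, some `q ≤ x` and some `c < q` the number of the odd primes `p ≤ x`,
`p ≡ c` modulo `q`, with `(D_i / p) a_i(p) = r_i` for all `i` differs from `2 ^ (-m)` times the number `M` of the odd primes `p ≤ x`,
`p ≡ c` modulo `q`, with `a_i(p) = ± r_i` for all `i` by more than `(max 1 M) ^ (1 / 2) x ^ δ + ram`. -/
def Bad {m : ℕ} (a : Fin m → ℕ → ℤ) (g : Fin m → ℤ[X]) (δ : ℝ) (W X N : ℕ) (D : Fin m → ℤ) : Prop :=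
  ∃ x : ℕ, X ≤ x ∧ x ^ W ≤ N ∧ ∃ (r : Fin m → ℤ) (q c : ℕ), (∀ i, r i ≠ 0) ∧ 1 ≤ q ∧ q ≤ x ∧ c < q ∧
    √(max 1 (base a r q c x : ℝ)) * (x : ℝ) ^ δ + ram (∏ i, g i) x <
      |(count a D r q c x : ℝ) - (base a r q c x : ℝ) / 2 ^ m|

/-- the number of the odd primes `p ≤ x` with `a(p) = ± r` -/
noncomputable def both (a : ℕ → ℤ) (r : ℤ) (x : ℕ) : ℕ :=
  ((range (x + 1)).filter (fun p => p.Prime ∧ p ≠ 2 ∧ (a p = r ∨ a p = - r))).card

/-- the number of the odd primes `p ≤ x` with `(D / p) a(p) = r` -/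
noncomputable def one (a : ℕ → ℤ) (D r : ℤ) (x : ℕ) : ℕ :=
  ((range (x + 1)).filter (fun p => p.Prime ∧ p ≠ 2 ∧ jacobiSym D p * a p = r)).card

/-- For some `x ≥ X` with `x ^ W ≤ N` and some `r ≠ 0` either at most `C √x / log x` odd primes `p ≤ x` satisfy `a(p) = ± r` but
more than `(C / 2 + ε) √x / log x` of them satisfy `(D / p) a(p) = r`, or more than `C √x / log x` odd primes `p ≤ x` satisfy
`a(p) = ± r` but at most `(C / 2 - ε) √x / log x` of them satisfy `(D / p) a(p) = r`. -/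
def Unlike (a : ℕ → ℤ) (C ε : ℝ) (W X N : ℕ) (D : ℤ) : Prop :=
  ∃ x : ℕ, X ≤ x ∧ x ^ W ≤ N ∧ ∃ r : ℤ, r ≠ 0 ∧
    (((both a r x : ℝ) ≤ C * (√x / Real.log x) ∧ (C / 2 + ε) * (√x / Real.log x) < one a D r x) ∨
     (C * (√x / Real.log x) < both a r x ∧ (one a D r x : ℝ) ≤ (C / 2 - ε) * (√x / Real.log x)))

theorem count_eq {m : ℕ} (a : Fin m → ℕ → ℤ) (D r : Fin m → ℤ) (q c x : ℕ) :
    count a D r q c x = Pool.Agent.T2H67.LT.count a D r q c x := by
  classical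
  unfold count Pool.Agent.T2H67.LT.count
  congr 1
  ext p
  rw [mem_filter, mem_filter]
  exact Iff.rfl

theorem base_eq {m : ℕ} (a : Fin m → ℕ → ℤ) (r : Fin m → ℤ) (q c x : ℕ) :
    base a r q c x = Pool.Agent.T2H67.LT.base a r q c x := by
  classical
  unfold base Pool.Agent.T2H67.LT.base
  congr 1
  ext p
  rw [mem_filter, mem_filter]
  exact Iff.rfl

theorem ram_eq (G : ℤ[X]) (x : ℕ) : ram G x = Pool.Agent.T2H67.LT.ram G x := by
  unfold ram Pool.Agent.T2H67.LT.ram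
  congr 1

/-- The integers in an interval are equidistributed. -/
theorem level_id (N q : ℕ) (hq : 1 ≤ q) (v : ℤ) (hv : 0 ≤ v) (hvq : v < q) :
    |(((Ioc 0 N).filter (fun n : ℕ => ((n : ℕ) : ℤ) % (q : ℤ) = v)).card : ℝ) - (N : ℝ) / q| ≤ 1 := by
  obtain ⟨w, rfl⟩ := Int.eq_ofNat_of_zero_le hv
  have hwq : w < q := by exact_mod_cast hvq
  have h1 : (Ioc 0 N).filter (fun n : ℕ => ((n : ℕ) : ℤ) % (q : ℤ) = (w : ℤ)) = (Ioc 0 N).filter (fun n : ℕ => n ≡ w [MOD q]) := by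
    refine filter_congr fun n _ => ?_
    unfold Nat.ModEq
    rw [Nat.mod_eq_of_lt hwq]
    norm_cast
  rw [h1]
  have h2 := Nat.Ioc_filter_modEq_card 0 N (r := q) hq w
  have hq0 : (0 : ℚ) < q := by exact_mod_cast hq
  have f1 := Int.floor_le (((N : ℚ) - w) / q)
  have f2 := Int.lt_floor_add_one (((N : ℚ) - w) / q)
  have f3 := Int.floor_le ((((0 : ℕ) : ℚ) - w) / q)
  have f4 := Int.lt_floor_add_one ((((0 : ℕ) : ℚ) - w) / q)
  have h3 : (((Ioc 0 N).filter (fun n : ℕ => n ≡ w [MOD q])).card : ℚ) =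
      max ((⌊((N : ℚ) - w) / q⌋ : ℚ) - ⌊(((0 : ℕ) : ℚ) - w) / q⌋) 0 := by
    exact_mod_cast congrArg (fun z : ℤ => (z : ℚ)) h2
  have e : ((N : ℚ) - w) / q - (((0 : ℕ) : ℚ) - w) / q = N / q := by
    rw [← sub_div]
    push_cast
    ring
  have hNq : (0 : ℚ) ≤ N / q := by positivity
  have h4 : |(((Ioc 0 N).filter (fun n : ℕ => n ≡ w [MOD q])).card : ℚ) - (N : ℚ) / q| ≤ 1 := by
    rw [h3, abs_le]
    rcases max_cases ((⌊((N : ℚ) - w) / q⌋ : ℚ) - ⌊(((0 : ℕ) : ℚ) - w) / q⌋) 0 with ⟨h5, h6⟩ | ⟨h5, h6⟩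
    · rw [h5]
      constructor <;> linarith
    · rw [h5]
      constructor <;> linarith
  have h5 : ((|(((Ioc 0 N).filter (fun n : ℕ => n ≡ w [MOD q])).card : ℚ) - (N : ℚ) / q| : ℚ) : ℝ) ≤ ((1 : ℚ) : ℝ) := by
    exact_mod_cast h4
  push_cast at h5
  exact h5

/-- **Main theorem.** (1) For all `m ≥ 1`, `d`, `κ`, `δ > 0`, `θ > 0` and `C₁ ≥ 1` there are `W` and `X₀` such that for all integer
sequences `a_1, …, a_m`, all polynomials `g_1, …, g_m` of degree between `1` and `d`, all `X ≥ X₀`, all `N` and all `D` with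
`Level θ C₁ D N` the number of the `1 ≤ j ≤ N` with `Bad a g δ W X N (g_i(D_j))_i` is at most `X ^ (-κ) N`.
(2) For all separable nonconstant `g`, all `κ`, `θ, C, ε > 0` and `C₁ ≥ 1` there are `W` and `X₀` such that for all integer sequences
`a`, all `X ≥ X₀`, all `N` and all `D` with `Level θ C₁ D N` the number of the `1 ≤ j ≤ N` with `Unlike a C ε W X N (g(D_j))` is at
most `X ^ (-κ) N`.
(3) The sequence `D_n = n` satisfies `Level 1 1 D N` for all `N ≥ 1`, and for all `k ≥ 2`, `x₀`, `0 < η < 1`, `A₀ ≥ 1` there are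
`0 < θ` and `C₁ ≥ 1` such that `D_n = ⌊f(n)⌋` satisfies `Level θ C₁ D N` for all `N ≥ 1` and all `f` with `Regular k x₀ η A₀ f`.
(4) If `α ≠ 0` and `c > 0` are real and `c` is not an integer then there are `x₀` and `0 < η < 1` such that for all
polynomials `P` with real coefficients of degree at most `⌊c⌋ + 1` the function `α x^c + P(x)` is
`Regular (⌊c⌋ + 2) x₀ η 4`; if `α ≠ 0` is real then there is `x₀` such that all functions `α x log x + β x + γ` are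
`Regular 2 x₀ (1/2) 4`. -/
theorem result :
    (∀ m d κ : ℕ, 1 ≤ m → ∀ δ θ C₁ : ℝ, 0 < δ → 0 < θ → 1 ≤ C₁ → ∃ W X₀ : ℕ, 1 ≤ W ∧
      ∀ (a : Fin m → ℕ → ℤ) (g : Fin m → ℤ[X]), (∀ i, 1 ≤ (g i).natDegree ∧ (g i).natDegree ≤ d) →
        ∀ (X N : ℕ) (D : ℕ → ℤ), X₀ ≤ X → Level θ C₁ D N →
          (({j : ℕ | 1 ≤ j ∧ j ≤ N ∧ Bad a g δ W X N (fun i => (g i).eval (D j))}).ncard : ℝ) * (X : ℝ) ^ κ ≤ N) ∧
    (∀ (g : ℤ[X]) (κ : ℕ), 1 ≤ g.natDegree → resultant g g.derivative ≠ 0 → ∀ θ C₁ C ε : ℝ, 0 < θ → 1 ≤ C₁ → 0 < C → 0 < ε →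
      ∃ W X₀ : ℕ, 1 ≤ W ∧ ∀ (a : ℕ → ℤ) (X N : ℕ) (D : ℕ → ℤ), X₀ ≤ X → Level θ C₁ D N →
        (({j : ℕ | 1 ≤ j ∧ j ≤ N ∧ Unlike a C ε W X N (g.eval (D j))}).ncard : ℝ) * (X : ℝ) ^ κ ≤ N) ∧
    ((∀ N : ℕ, 1 ≤ N → Level 1 1 (fun n => (n : ℤ)) N) ∧
      ∀ k : ℕ, 2 ≤ k → ∀ x₀ η A₀ : ℝ, 0 < η → η < 1 → 1 ≤ A₀ → ∃ θ C₁ : ℝ, 0 < θ ∧ 1 ≤ C₁ ∧
        ∀ f : ℝ → ℝ, Regular k x₀ η A₀ f → ∀ N : ℕ, 1 ≤ N → Level θ C₁ (fun n => ⌊f n⌋) N) ∧
    ((∀ α c : ℝ, α ≠ 0 → 0 < c → (∀ n : ℕ, c ≠ n) → ∃ x₀ η : ℝ, 0 < η ∧ η < 1 ∧ ∀ P : ℝ[X],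
      P.natDegree ≤ ⌊c⌋₊ + 1 → Regular (⌊c⌋₊ + 2) x₀ η 4 (fun x => α * x ^ c + P.eval x)) ∧
    (∀ α : ℝ, α ≠ 0 → ∃ x₀ : ℝ, ∀ β γ : ℝ, Regular 2 x₀ (1 / 2) 4 (fun x => α * (x * Real.log x) + β * x + γ))) := by
  refine ⟨?_, ?_, ⟨?_, ?_⟩, fun α c hα hc hcn => Pool.Agent.T2H58.LU.regular_rpow α hα c hc hcn,
    fun α hα => Pool.Agent.T2H58.LU.regular_log α hα⟩
  · intro m d κ hm δ θ C₁ hδ hθ hC₁
    obtain ⟨W, X₀, hW, h⟩ := Pool.Agent.T2H67.LT.law m d κ hm δ hδ θ C₁ hθ hC₁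
    refine ⟨W, X₀, hW, fun a g hg X N D hX hD => ?_⟩
    have h1 := h a g hg X N D hX hD
    have h2 : {j : ℕ | 1 ≤ j ∧ j ≤ N ∧ Bad a g δ W X N (fun i => (g i).eval (D j))} =
        {j : ℕ | 1 ≤ j ∧ j ≤ N ∧ ∃ x : ℕ, X ≤ x ∧ x ^ W ≤ N ∧
          ∃ (r : Fin m → ℤ) (q c : ℕ), (∀ i, r i ≠ 0) ∧ 1 ≤ q ∧ q ≤ x ∧ c < q ∧
            √(max 1 (Pool.Agent.T2H67.LT.base a r q c x : ℝ)) * (x : ℝ) ^ δ + Pool.Agent.T2H67.LT.ram (∏ i, g i) x <
              |(Pool.Agent.T2H67.LT.count a (fun i => (g i).eval (D j)) r q c x : ℝ) -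
                (Pool.Agent.T2H67.LT.base a r q c x : ℝ) / 2 ^ m|} := by
      ext j
      simp only [Set.mem_ofPred_eq, Bad, count_eq, base_eq, ram_eq]
    rw [h2]
    exact h1
  · intro g κ hg hsep θ C₁ C ε hθ hC₁ hC hε
    obtain ⟨W, X₀, hW, h⟩ := Pool.Agent.T2H67.LT.transfer g hg hsep κ θ C₁ C ε hθ hC₁ hC hε
    exact ⟨W, X₀, hW, fun a X N D hX hD => h a D X N hX hD⟩
  · intro N hN q hq hqN v hv hvq
    have h := level_id N q hq v hv hvq
    rw [sub_self, Real.rpow_zero, mul_one]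
    exact h
  · intro k hk x₀ η A₀ hη hη1 hA₀
    obtain ⟨θ, hθ, hθ1, C₁, hC₁, heq⟩ := Pool.Agent.T2H58.DQ.eq_reg k hk x₀ η hη hη1 A₀ hA₀
    exact ⟨θ, C₁, hθ, hC₁, fun f hf N hN q hq hqX v hv hvq => heq f hf N q hN hq hqX v hv hvq⟩

end Pool.Agent.Results.MP_631487_nt.RealPowerTwists
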